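import Pool.Agent.Lib.MP_f302e8_gs.End
import Pool.Agent.Lib.MP_f302e8_u83.Goal2

/-!
# Injections between pure sparse gapsets of consecutive genera (MP_f302e8_co, Q1)

`#𝒢_κ(g) ≤ #𝒢_{κ+1}(g+1)` whenever `g ≥ (C/c) (κ+1) φ^κ` (`φ` the golden ratio, `C, c` absolute);
in particular for every `κ` and all `g ≥ g₀(κ)`.  More precisely, for `g ≥ κ + 2` the number of all
`κ`-sparse gapsets of genus `g` is at most `exp (C (κ+1) - c g φ^{-κ})` times `#𝒢_{κ+1}(g+1)`.
-/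

set_option autoImplicit false

namespace Pool.Agent.Results.MP_f302e8_co.FixedSparsity

/-- A gapset: a finite set of positive integers such that `x + y ∈ G`, `x, y > 0` implies
`x ∈ G` or `y ∈ G`. -/
def IsGapset (G : Finset ℕ) : Prop :=
  0 ∉ G ∧ ∀ x y : ℕ, 0 < x → 0 < y → x + y ∈ G → x ∈ G ∨ y ∈ G

/-- `a < b` are consecutive elements of `G`. -/
def Consec (G : Finset ℕ) (a b : ℕ) : Prop :=
  a ∈ G ∧ b ∈ G ∧ a < b ∧ ∀ c ∈ G, ¬ (a < c ∧ c < b)

/-- `κ`-sparse: consecutive elements differ by at most `κ`. -/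
def Sparse (κ : ℕ) (G : Finset ℕ) : Prop := ∀ a b, Consec G a b → b - a ≤ κ

/-- pure `κ`-sparse, with the two conventions of the problem (`∅` is pure `0`-sparse and `{1}` is
pure `1`-sparse). -/
def PureSparse (κ : ℕ) (G : Finset ℕ) : Prop :=
  (G = ∅ ∧ κ = 0) ∨ (G = {1} ∧ κ = 1) ∨ (Sparse κ G ∧ ∃ a b, Consec G a b ∧ b - a = κ)

/-- `𝒢_κ(g)`: the set of pure `κ`-sparse gapsets of genus `g`. -/
def pureGapsets (κ g : ℕ) : Set (Finset ℕ) := {G | IsGapset G ∧ G.card = g ∧ PureSparse κ G}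

/-- the set of all `κ`-sparse gapsets of genus `g`. -/
def sparseGapsets (κ g : ℕ) : Set (Finset ℕ) := {G | IsGapset G ∧ G.card = g ∧ Sparse κ G}

theorem exists_inj {α β : Set (Finset ℕ)} (hα : α.Finite) (hβ : β.Finite)
    (h : α.ncard ≤ β.ncard) : ∃ f : α → β, Function.Injective f := by
  have := hα.fintype
  have := hβ.fintype
  rw [Set.ncard_eq_toFinset_card', Set.ncard_eq_toFinset_card', Set.toFinset_card,
    Set.toFinset_card] at h
  obtain ⟨e⟩ := Function.Embedding.nonempty_of_card_le h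
  exact ⟨e, e.injective⟩

/-- There are constants `C, c > 0` such that for all `κ` and `g`:
(a) all these sets are finite and `𝒢_κ(g)` is contained in the set of `κ`-sparse gapsets;
(b) if `g ≥ κ + 2`, the number of `κ`-sparse gapsets of genus `g` is at most
`exp (C (κ + 1) - c g φ^{-κ}) * #𝒢_{κ+1}(g+1)`;
(c) if `c g ≥ C (κ + 1) φ^κ`, there are injective maps from `𝒢_κ(g)`, and even from the set of all
`κ`-sparse gapsets of genus `g`, to `𝒢_{κ+1}(g+1)`. -/
theorem result : ∃ C c : ℝ, 0 < C ∧ 0 < c ∧ ∀ κ g : ℕ,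
    ((sparseGapsets κ g).Finite ∧ pureGapsets κ g ⊆ sparseGapsets κ g) ∧
    (κ + 2 ≤ g → ((sparseGapsets κ g).ncard : ℝ) ≤
      Real.exp (C * (κ + 1) - c * g / Real.goldenRatio ^ κ) *
        ((pureGapsets (κ + 1) (g + 1)).ncard : ℝ)) ∧
    (C * (κ + 1) * Real.goldenRatio ^ κ ≤ c * g →
      (∃ f : pureGapsets κ g → pureGapsets (κ + 1) (g + 1), Function.Injective f) ∧
      (∃ f : sparseGapsets κ g → pureGapsets (κ + 1) (g + 1), Function.Injective f)) := by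
  obtain ⟨C, c, hC, hc, h1, h2⟩ :=
    Pool.C4.threshold Pool.Agent.C4U.wordsGoal2 Pool.Agent.C4U.uniGoal
  refine ⟨C, c, hC, hc, fun κ g => ⟨⟨Pool.C4.SG_finite κ g, Pool.C4.GS_subset_SG κ g⟩, h1 κ g, ?_⟩⟩
  intro hg
  have h := h2 κ g hg
  obtain ⟨f, hf⟩ := exists_inj (Pool.C4.SG_finite κ g) (Pool.C4.GS_finite (κ + 1) (g + 1)) h
  refine ⟨⟨fun G => f ⟨G.1, Pool.C4.GS_subset_SG κ g G.2⟩, ?_⟩, ⟨f, hf⟩⟩
  intro G G' h
  have h2 := congrArg (fun z : sparseGapsets κ g => (z : Finset ℕ)) (hf h)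
  exact Subtype.ext h2

end Pool.Agent.Results.MP_f302e8_co.FixedSparsity
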